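import Pool.Agent.Run7.h909.GT.Rng

/-! Project T3, piece DET: `GL_n` of the truncated polynomial rings -/

set_option autoImplicit false

open Pool.Agent.Y110.FJ (ClosedE)
open scoped Polynomial

namespace Run7.h950.T3

open Run7.h909.GT (ext_solv)

variable {C : ∀ (G : Type) [Group G], Prop} {n : Type} [Fintype n] [DecidableEq n]

theorem map_entry {B B' : Type} [CommRing B] [CommRing B'] (φ : B →+* B') (g : GL n B)
    (i j : n) : (Matrix.GeneralLinearGroup.map φ g) i j = φ (g i j) := rfl

theorem map_inj {B B' : Type} [CommRing B] [CommRing B'] (φ : B →+* B')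
    (h : Function.Injective φ) :
    Function.Injective (Matrix.GeneralLinearGroup.map (n := n) φ) := by
  intro g k e
  ext i j
  apply h
  rw [← map_entry, ← map_entry, e]

/-- ideals of square zero -/
theorem sqz (hC : ClosedE C) (hsol : ∀ (S : Type) [Group S], Group.IsSolvable S → C S)
    {B B' : Type} [CommRing B] [CommRing B'] (φ : B →+* B')
    (hφ : ∀ x y, φ x = 0 → φ y = 0 → x * y = 0) (h : C (GL n B')) : C (GL n B) := by
  refine ext_solv hC hsol (Matrix.GeneralLinearGroup.map φ) h (Group.isSolvable_of_comm ?_)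
  rintro ⟨g, hg⟩ ⟨k, hk⟩
  apply Subtype.ext
  show g * k = k * g
  have key : ∀ g : GL n B, Matrix.GeneralLinearGroup.map φ g = 1 → ∀ i j,
      φ (((g : Matrix n n B) - 1) i j) = 0 := by
    intro g hg i j
    rw [Matrix.sub_apply, map_sub]
    have h1 := map_entry φ g i j
    rw [hg] at h1
    rw [← h1]
    have h2 : ((1 : GL n B') : Matrix n n B') i j =
      φ ((1 : Matrix n n B) i j) := by
      rw [Units.val_one, Matrix.one_apply, Matrix.one_apply]
      split_ifs
      · rw [map_one]
      · rw [map_zero]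
    rw [← h2]
    exact sub_self _
  have h0 : ∀ g k : GL n B, Matrix.GeneralLinearGroup.map φ g = 1 →
      Matrix.GeneralLinearGroup.map φ k = 1 →
      ((g : Matrix n n B) - 1) * ((k : Matrix n n B) - 1) = 0 := by
    intro g k hg hk
    ext i j
    rw [Matrix.mul_apply, Matrix.zero_apply]
    exact Finset.sum_eq_zero fun l _ => hφ _ _ (key g hg i l) (key k hk l j)
  have h1 := h0 g k hg hk
  have h2 := h0 k g hk hg
  apply Units.ext
  rw [Units.val_mul, Units.val_mul]
  have h3 : (g : Matrix n n B) * k - k * g =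
      ((g : Matrix n n B) - 1) * ((k : Matrix n n B) - 1) -
      ((k : Matrix n n B) - 1) * ((g : Matrix n n B) - 1) := by
    noncomm_ring
  rw [h1, h2, sub_zero] at h3
  exact sub_eq_zero.1 h3

/-- powers of an ideal -/
theorem pow_mem (hC : ClosedE C) (hsol : ∀ (S : Type) [Group S], Group.IsSolvable S → C S)
    {A : Type} [CommRing A] (J : Ideal A) (h : C (GL n (A ⧸ J))) (k : ℕ) :
    C (GL n (A ⧸ J ^ (k + 1))) := by
  induction k with
  | zero =>
    have e : J ^ (0 + 1) ≤ J := by rw [zero_add, pow_one]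
    refine hC.base.of_injective _ _ (Matrix.GeneralLinearGroup.map (Ideal.Quotient.factor e))
      (map_inj _ ?_) h
    rw [injective_iff_map_eq_zero]
    intro x
    obtain ⟨a, rfl⟩ := Ideal.Quotient.mk_surjective x
    intro hx
    rw [Ideal.Quotient.factor_mk, Ideal.Quotient.eq_zero_iff_mem] at hx
    rw [Ideal.Quotient.eq_zero_iff_mem, zero_add, pow_one]
    exact hx
  | succ k ih =>
    have e : J ^ (k + 1 + 1) ≤ J ^ (k + 1) := Ideal.pow_le_pow_right (Nat.le_succ _)
    refine sqz hC hsol (Ideal.Quotient.factor e) ?_ ih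
    intro x y
    obtain ⟨a, rfl⟩ := Ideal.Quotient.mk_surjective x
    obtain ⟨b, rfl⟩ := Ideal.Quotient.mk_surjective y
    intro hx hy
    rw [Ideal.Quotient.factor_mk, Ideal.Quotient.eq_zero_iff_mem] at hx hy
    rw [← map_mul, Ideal.Quotient.eq_zero_iff_mem]
    have h1 := Ideal.mul_mem_mul hx hy
    rw [← pow_add] at h1
    exact Ideal.pow_le_pow_right (by omega) h1

/-- **truncated polynomial rings** -/
theorem t_DETn (hC : ClosedE C) (hsol : ∀ (S : Type) [Group S], Group.IsSolvable S → C S)
    (A : Type) [CommRing A] (h : C (GL n A)) (N : ℕ) :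
    C (GL n (A[X] ⧸ Ideal.span {(Polynomial.X : A[X]) ^ N})) := by
  cases N with
  | zero =>
    have hs : Subsingleton (A[X] ⧸ Ideal.span {(Polynomial.X : A[X]) ^ 0}) := by
      rw [Ideal.Quotient.subsingleton_iff, pow_zero, Ideal.span_singleton_one]
    have hs' : Subsingleton (GL n (A[X] ⧸ Ideal.span {(Polynomial.X : A[X]) ^ 0})) :=
      ⟨fun g k => by ext i j; exact Subsingleton.elim _ _⟩
    exact hsol _ (Group.isSolvable_of_comm fun a b => Subsingleton.elim _ _)
  | succ k =>
    have h0 : C (GL n (A[X] ⧸ Ideal.span {(Polynomial.X : A[X])})) := by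
      refine hC.base.of_injective _ _ (Matrix.GeneralLinearGroup.map
        (Ideal.Quotient.lift (Ideal.span {(Polynomial.X : A[X])}) Polynomial.constantCoeff ?_))
        (map_inj _ ?_) h
      · intro a ha
        rw [Ideal.mem_span_singleton, Polynomial.X_dvd_iff] at ha
        exact ha
      · rw [injective_iff_map_eq_zero]
        intro x
        obtain ⟨a, rfl⟩ := Ideal.Quotient.mk_surjective x
        intro hx
        rw [Ideal.Quotient.lift_mk] at hx
        rw [Ideal.Quotient.eq_zero_iff_mem, Ideal.mem_span_singleton, Polynomial.X_dvd_iff]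
        exact hx
    have h1 := pow_mem hC hsol (Ideal.span {(Polynomial.X : A[X])}) h0 k
    rwa [Ideal.span_singleton_pow] at h1

theorem t_DET (C : ∀ (G : Type) [Group G], Prop) (hC : ClosedE C)
    (hsol : ∀ (S : Type) [Group S], Group.IsSolvable S → C S)
    (A : Type) [CommRing A] (h : C (GL (Fin 3) A)) (N : ℕ) :
    C (GL (Fin 3) (A[X] ⧸ Ideal.span {(Polynomial.X : A[X]) ^ N})) :=
  t_DETn hC hsol A h N

end Run7.h950.T3
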